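import Mathlib
import Pool.Agent.H.MP_307271_an.A

open Set Filter Topology

namespace Pool.Agent.Results.MP_307271_an.Q2Yes

open Pool.Agent.H.MP_307271_an

section defs
variable {X : Type} [MetricSpace X]

/-- the Bowen distance -/
noncomputable def DT (F : X → X) (T : ℕ) (x y : X) : ℝ := ⨆ t : Fin T, dist (F^[t] x) (F^[t] y)

/-- largest size of a separated set -/
noncomputable def sep (F : X → X) (ε : ℝ) (T : ℕ) : ℕ :=
  sSup {N | ∃ S : Finset X, S.card = N ∧ ∀ x ∈ S, ∀ y ∈ S, x ≠ y → ε ≤ DT F T x y}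

/-- least size of a spanning set -/
noncomputable def span (F : X → X) (ε : ℝ) (T : ℕ) : ℕ :=
  sInf {N | ∃ S : Finset X, S.card = N ∧ ∀ x, ∃ s ∈ S, DT F T s x < ε}

/-- exponential rate at time T -/
noncomputable def rate (a : ℕ → ℕ) (T : ℕ) : EReal := ((Real.log (a T) / T : ℝ) : EReal)

end defs

lemma le_DT (T : ℕ) (x y : Pt) (t : ℕ) (ht : t < T) : (dn (x.1 t) (y.1 t) : ℝ) ≤ DT FF T x y := by
  refine le_trans ?_ (le_ciSup (f := fun t : Fin T => dist (FF^[t] x) (FF^[t] y))
    (Finite.bddAbove_range _) ⟨t, ht⟩)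
  have := le_DD (FF^[t] x) (FF^[t] y) 0
  rw [dist_eq]
  simpa [tm, FF_iter] using this

lemma DT_le (T r : ℕ) (x y : Pt) (h : ∀ n : ℤ, -r < n → n < T + r → x.1 n = y.1 n) :
    DT FF T x y ≤ 2 / 2 ^ r := by
  refine Real.iSup_le (fun t => DD_le_of _ _ r fun n hn => ?_) (by positivity)
  have := t.2
  rw [FF_iter, FF_iter, h _ (by omega) (by omega)]

lemma DT_le_one (T : ℕ) (x y : Pt) (h : ∀ t : ℕ, t < T → dn (x.1 t) (y.1 t) ≤ 1) :
    DT FF T x y ≤ 1 := by
  refine Real.iSup_le (fun t => ciSup_le fun n => ?_) zero_le_one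
  by_cases hn : n = 0
  · have : (dn (x.1 t) (y.1 t) : ℝ) ≤ 1 := by exact_mod_cast h t t.2
    simpa [tm, FF_iter, hn] using this
  · simpa using tm_le (FF^[t] x) (FF^[t] y) n 1 (by omega)

open Classical in
noncomputable def Wd (Y : Set Pt) (T : ℕ) : Finset (Fin T → Fin 4) :=
  Finset.univ.filter fun w => ∃ x ∈ Y, ∀ t : Fin T, w t = x.1 (t : ℕ)

lemma mem_Wd {Y : Set Pt} {T : ℕ} {w : Fin T → Fin 4} :
    w ∈ Wd Y T ↔ ∃ x ∈ Y, ∀ t : Fin T, w t = x.1 (t : ℕ) := by simp [Wd]

lemma fekete {Y : Set Pt} (h0 : p0 ∈ Y) (hY : ∀ x ∈ Y, ∀ k : ℕ, FF^[k] x ∈ Y) :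
    (∀ T, 1 ≤ (Wd Y T).card) ∧
      ∃ L : ℝ, Tendsto (fun T : ℕ => Real.log (Wd Y T).card / T) atTop (𝓝 L) := by
  have h1 : ∀ T, 1 ≤ (Wd Y T).card := fun T =>
    Finset.card_pos.2 ⟨fun t => p0.1 (t : ℕ), mem_Wd.2 ⟨p0, h0, fun _ => rfl⟩⟩
  have h1' : ∀ T, (1 : ℝ) ≤ (Wd Y T).card := fun T => by exact_mod_cast h1 T
  have hs : Subadditive fun T : ℕ => Real.log (Wd Y T).card := fun m n => by
    have : (Wd Y (m + n)).card ≤ (Wd Y m ×ˢ Wd Y n).card := by
      refine Finset.card_le_card_of_injOn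
        (fun w => (fun t => w (Fin.castAdd n t), fun t => w (Fin.natAdd m t))) (fun w hw => ?_)
        fun v _ w _ h => ?_
      · obtain ⟨x, hx, h⟩ := mem_Wd.1 hw
        refine Finset.mem_product.2 ⟨mem_Wd.2 ⟨x, hx, fun t => h _⟩,
          mem_Wd.2 ⟨_, hY x hx m, fun t => ?_⟩⟩
        show w _ = _
        rw [FF_iter, h]
        simp [add_comm]
      · funext t
        refine Fin.addCases (fun s => ?_) (fun s => ?_) t
        · exact congrFun (congrArg Prod.fst h) s
        · exact congrFun (congrArg Prod.snd h) s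
    rw [Finset.card_product] at this
    have a1 := h1' m
    have a2 := h1' n
    rw [← Real.log_mul (by linarith) (by linarith)]
    exact Real.log_le_log (by linarith [h1' (m + n)]) (by exact_mod_cast this)
  exact ⟨h1, _, hs.tendsto_lim ⟨0, by
    rintro _ ⟨n, rfl⟩
    exact div_nonneg (Real.log_nonneg (h1' n)) (by positivity)⟩⟩

lemma sandwich {a b : ℕ → ℕ} {C : ℕ} {L : ℝ} (h1 : ∀ T, 1 ≤ a T) (h2 : ∀ T, a T ≤ b T)
    (h3 : ∀ T, b T ≤ a T * C) (hL : Tendsto (fun T : ℕ => Real.log (a T) / T) atTop (𝓝 L)) :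
    Tendsto (rate b) atTop (𝓝 (L : EReal)) := by
  refine EReal.tendsto_coe.2 ?_
  have h4 := hL.add (tendsto_const_div_atTop_nhds_zero_nat (Real.log C))
  rw [add_zero] at h4
  refine tendsto_of_tendsto_of_tendsto_of_le_of_le hL h4 (fun T => ?_) fun T => ?_
  · have : (1 : ℝ) ≤ a T := by exact_mod_cast h1 T
    exact div_le_div_of_nonneg_right (Real.log_le_log (by linarith) (by exact_mod_cast h2 T))
      (by positivity)
  · have a1 : 0 < a T := h1 T
    have a2 : 0 < b T := a1.trans_le (h2 T)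
    have a3 : 0 < C := Nat.pos_of_mul_pos_left (a2.trans_le (h3 T))
    simp only
    rw [← add_div, ← Real.log_mul (by positivity) (by positivity)]
    exact div_le_div_of_nonneg_right (Real.log_le_log (by positivity) (by exact_mod_cast h3 T))
      (by positivity)

lemma sep_bounds {δ : ℝ} {T : ℕ} {Y : Set Pt} {B : ℕ}
    (h1 : ∀ x ∈ Y, ∀ y ∈ Y, ∀ t : ℕ, t < T → x.1 t ≠ y.1 t → δ ≤ DT FF T x y)
    (h2 : ∀ S : Finset Pt, (∀ x ∈ S, ∀ y ∈ S, x ≠ y → δ ≤ DT FF T x y) → S.card ≤ B) :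
    (Wd Y T).card ≤ sep FF δ T ∧ sep FF δ T ≤ B := by
  classical
  constructor
  · refine le_csSup ⟨B, by rintro _ ⟨S, rfl, hS⟩; exact h2 S hS⟩ ?_
    choose! f hf hf2 using fun w (hw : w ∈ Wd Y T) => mem_Wd.1 hw
    refine ⟨(Wd Y T).image f, Finset.card_image_of_injOn fun v hv w hw h =>
      funext fun t => by rw [hf2 v hv, hf2 w hw, h], ?_⟩
    simp only [Finset.mem_image]
    rintro _ ⟨v, hv, rfl⟩ _ ⟨w, hw, rfl⟩ hne
    obtain ⟨t, ht⟩ := Function.ne_iff.1 (show v ≠ w from fun h => hne (by rw [h]))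
    rw [hf2 v hv, hf2 w hw] at ht
    exact h1 _ (hf v hv) _ (hf w hw) t t.2 ht
  · exact csSup_le' (by rintro _ ⟨S, rfl, hS⟩; exact h2 S hS)

lemma sep_small : ∃ L : ℝ, ∀ δ : ℝ, 0 < δ → δ ≤ 1 →
    Tendsto (rate (sep FF δ)) atTop (𝓝 (L : EReal)) := by
  classical
  obtain ⟨h1, L, hL⟩ := fekete (Y := univ) trivial fun _ _ _ => trivial
  refine ⟨L, fun δ h0 hδ => ?_⟩
  obtain ⟨r, hr⟩ := small h0
  have := fun T => sep_bounds (δ := δ) (T := T) (Y := univ) (B := (Wd univ T).card * 16 ^ r)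
    (fun x _ y _ t ht hne => by
      have : (1 : ℝ) ≤ dn (x.1 t) (y.1 t) := by exact_mod_cast dn_ge _ _ hne
      linarith [le_DT T x y t ht])
    (fun S hS => by
      have := Finset.card_le_card_of_injOn (s := S)
        (t := Wd univ T ×ˢ (Finset.univ : Finset (Fin r → Fin 4 × Fin 4)))
        (fun x => (fun t => x.1 (t : ℕ), fun s => (x.1 (-(s : ℕ)), x.1 (T + (s : ℕ)))))
        (fun x _ => Finset.mem_product.2 ⟨mem_Wd.2 ⟨x, trivial, fun _ => rfl⟩, Finset.mem_univ _⟩)
        (fun x hx y hy h => by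
          by_contra hne
          have a1 := hS x hx y hy hne
          have a2 := DT_le T r x y fun n n1 n2 => by
            by_cases c1 : n < 0
            · have := congrArg Prod.fst (congrFun (congrArg Prod.snd h) ⟨n.natAbs, by omega⟩)
              simp only at this
              rwa [show -(n.natAbs : ℤ) = n by omega] at this
            · by_cases c2 : n < T
              · have := congrFun (congrArg Prod.fst h) ⟨n.natAbs, by omega⟩
                simp only at this
                rwa [show (n.natAbs : ℤ) = n by omega] at this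
              · have := congrArg Prod.snd
                  (congrFun (congrArg Prod.snd h) ⟨(n - T).natAbs, by omega⟩)
                simp only at this
                rwa [show (T : ℤ) + ((n - T).natAbs : ℤ) = n by omega] at this
          linarith)
      simpa using this)
  exact sandwich h1 (fun T => (this T).1) (fun T => (this T).2) hL

def pr (a : Fin 4) : Fin 4 := if a = 2 then 0 else a

lemma pr1 : ∀ a, pr a = 3 → a = 3 := by decide
lemma pr2 : ∀ a, a = 0 ∨ a = 1 → pr a = 0 ∨ pr a = 1 := by decide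
lemma pr3 : ∀ a, pr a ≠ 2 := by decide
lemma pr4 : ∀ a b, pr a = pr b → dn a b ≤ 1 := by decide
lemma pr5 : ∀ a b : Fin 4, a ≠ 2 → b ≠ 2 → a ≠ b → dn a b = 2 := by decide

def prx (x : Pt) : Pt := ⟨fun t => pr (x.1 t), mem_sub x.2 (fun _ h => pr1 _ h)
  fun i n t a b c d => pr2 _ ((x.2 i n t 0).2.1 (pr1 _ a) (pr1 _ b) c d)⟩

lemma sep_all (δ : ℝ) (h0 : 0 < δ) : ∃ L : ℝ, Tendsto (rate (sep FF δ)) atTop (𝓝 (L : EReal)) := by
  classical
  rcases le_or_gt δ 1 with h1 | h1
  · obtain ⟨L, hL⟩ := sep_small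
    exact ⟨L, hL δ h0 h1⟩
  rcases le_or_gt δ 2 with h2 | h2
  · obtain ⟨h3, L, hL⟩ := fekete (Y := {x | ∀ t, x.1 t ≠ 2}) (fun _ => by simp [p0])
      fun x hx k t => by rw [FF_iter]; exact hx _
    have := fun T => sep_bounds (δ := δ) (T := T) (Y := {x | ∀ t, x.1 t ≠ 2})
      (B := (Wd {x | ∀ t, x.1 t ≠ 2} T).card * 1)
      (fun x hx y hy t ht hne => by
        have := le_DT T x y t ht
        rw [pr5 _ _ (hx _) (hy _) hne] at this
        exact h2.trans (by exact_mod_cast this))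
      (fun S hS => by
        rw [mul_one]
        refine Finset.card_le_card_of_injOn (fun x => fun t => pr (x.1 (t : ℕ)))
          (fun x _ => mem_Wd.2 ⟨prx x, fun t => pr3 _, fun _ => rfl⟩) fun x hx y hy h => ?_
        by_contra hne
        have a1 := hS x hx y hy hne
        have a2 := DT_le_one T x y fun t ht => pr4 _ _ (congrFun h ⟨t, ht⟩)
        linarith)
    exact ⟨L, sandwich h3 (fun T => (this T).1) (fun T => (this T).2) hL⟩
  · obtain ⟨h3, L, hL⟩ := fekete (Y := {x | ∀ t, x.1 t = 0}) (fun _ => rfl)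
      fun x hx k t => by rw [FF_iter]; exact hx _
    have := fun T => sep_bounds (δ := δ) (T := T) (Y := {x | ∀ t, x.1 t = 0})
      (B := (Wd {x | ∀ t, x.1 t = 0} T).card * 1)
      (fun x hx y hy t ht hne => absurd ((hx _).trans (hy _).symm) hne)
      (fun S hS => by
        rw [mul_one]
        refine le_trans (Finset.card_le_one.2 fun x hx y hy => ?_) (h3 T)
        by_contra hne
        have a1 := hS x hx y hy hne
        have a2 : DT FF T x y ≤ 2 / 2 ^ 0 :=
          Real.iSup_le (fun t => DD_le_of _ _ 0 fun n hn => by omega) (by positivity)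
        norm_num at a2
        linarith)
    exact ⟨L, sandwich h3 (fun T => (this T).1) (fun T => (this T).2) hL⟩

def SpP (A : ℤ → Prop) (t : ℤ) : Prop :=
  ∃ (i : ℤ) (n : ℕ), A i ∧ A (i + 1 + 16 ^ n) ∧ i < t ∧ t < i + 1 + 16 ^ n

open Classical in
noncomputable def Sp (T : ℕ) (A : ℤ → Prop) : Finset ℤ := (Finset.Ico (0 : ℤ) T).filter (SpP A)

lemma card_Sp (x : Pt) (T p : ℕ) (hp : ∀ n : ℕ, (16 : ℤ) ^ n < T → 16 ^ n ≤ (p : ℤ)) :
    2 * (Sp T fun t => 0 ≤ t ∧ t < T ∧ x.1 t = 3).card ≤ T + p := by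
  classical
  set S := Sp T fun t => 0 ≤ t ∧ t < T ∧ x.1 t = 3 with hS
  have hm : ∀ t ∈ S, SpP (fun t => 0 ≤ t ∧ t < T ∧ x.1 t = 3) t := fun t ht =>
    (Finset.mem_filter.1 ht).2
  choose! i n h1 h2 h3 h4 using hm
  have k3 : ∀ s ∈ S, ∀ t ∈ S, i s < i t → i s + 1 + 2 * 16 ^ n s ≤ i t := fun s hs t ht =>
    (x.2 (i s) (n s) (i t) (n t)).2.2 (h1 s hs).2.2 (h2 s hs).2.2 (h1 t ht).2.2 (h2 t ht).2.2
  have k2 : ∀ s ∈ S, ∀ t ∈ S, i s = i t → ¬ (16 : ℤ) ^ n s < 16 ^ n t := fun s hs t ht e hlt => by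
    have p3 : (0 : ℤ) < 16 ^ n s := by positivity
    have a := (h2 s hs).2.2
    rcases (x.2 (i t) (n t) (i s + 1 + 16 ^ n s) 0).2.1 (h1 t ht).2.2 (h2 t ht).2.2 (by omega)
      (by omega) with h | h <;> rw [h] at a <;> exact absurd a (by decide)
  have hinj : InjOn (fun t => t + 16 ^ n t + 1) S := fun s hs t ht e => by
    have := k3 s hs t ht
    have := k3 t ht s hs
    have := k2 s hs t ht
    have := k2 t ht s hs
    have := h3 s hs
    have := h3 t ht
    have := h4 s hs
    have := h4 t ht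
    have p3 : (0 : ℤ) < 16 ^ n s := by positivity
    have p3 : (0 : ℤ) < 16 ^ n t := by positivity
    simp only at e
    omega
  have hdis : Disjoint S (S.image fun t => t + 16 ^ n t + 1) := by
    rw [Finset.disjoint_left]
    intro s hs hs2
    obtain ⟨t, ht, e⟩ := Finset.mem_image.1 hs2
    have := k3 s hs t ht
    have := k3 t ht s hs
    have := k2 s hs t ht
    have := k2 t ht s hs
    have := h3 s hs
    have := h3 t ht
    have := h4 s hs
    have := h4 t ht
    have p3 : (0 : ℤ) < 16 ^ n s := by positivity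
    have p3 : (0 : ℤ) < 16 ^ n t := by positivity
    omega
  have hsub : S ∪ (S.image fun t => t + 16 ^ n t + 1) ⊆ Finset.Ico (0 : ℤ) (T + p) := by
    intro s hs
    rw [Finset.mem_Ico]
    rcases Finset.mem_union.1 hs with hs | hs
    · have := Finset.mem_Ico.1 (Finset.mem_filter.1 hs).1
      omega
    · obtain ⟨t, ht, rfl⟩ := Finset.mem_image.1 hs
      have := h1 t ht
      have := h2 t ht
      have := h3 t ht
      have := h4 t ht
      have := hp (n t) (by omega)
      have p3 : (0 : ℤ) < 16 ^ n t := by positivity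
      omega
  have := Finset.card_le_card hsub
  rw [Finset.card_union_of_disjoint hdis, Finset.card_image_of_injOn hinj, Int.card_Ico] at this
  omega

def dec {m : ℕ} (f : Fin m → Option (Fin 64)) (t : ℤ) : Prop :=
  ∃ q s, f q = some s ∧ t = 64 * ((q : ℕ) : ℤ) + (s : ℕ)

open Classical in
noncomputable def cen0 (A : ℤ → Prop) (W : Finset ℤ) (t : ℤ) : Fin 4 :=
  if A t then 3 else if SpP A t then (if t ∈ W then 1 else 0) else 2

open Classical in
noncomputable def cen (A : ℤ → Prop) (W : Finset ℤ) : Pt :=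
  if h : cen0 A W ∈ X0 then ⟨_, h⟩ else p0

lemma upper (m p B : ℕ) (hp : ∀ n : ℕ, (16 : ℤ) ^ n < (64 * m : ℕ) → 16 ^ n ≤ (p : ℤ))
    (hB : 64 * m + p ≤ 2 * B) : ∃ S : Finset Pt, S.card ≤ 65 ^ m * 2 ^ B ∧
      ∀ x : Pt, ∃ s ∈ S, ∀ t : ℕ, t < 64 * m → dn (s.1 t) (x.1 t) ≤ 1 := by
  classical
  refine ⟨(Finset.univ.filter fun f : Fin m → Option (Fin 64) =>
    (Sp (64 * m) (dec f)).card ≤ B).biUnion fun f =>
      (Sp (64 * m) (dec f)).powerset.image (cen (dec f)), ?_, fun x => ?_⟩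
  · refine (Finset.card_biUnion_le_card_mul _ _ (2 ^ B) fun f hf => ?_).trans ?_
    · refine Finset.card_image_le.trans ?_
      rw [Finset.card_powerset]
      exact Nat.pow_le_pow_right (by norm_num) (Finset.mem_filter.1 hf).2
    · refine Nat.mul_le_mul_right _ ((Finset.card_filter_le _ _).trans ?_)
      simp
  · let f : Fin m → Option (Fin 64) := fun q =>
      if h : ∃ s : Fin 64, x.1 (64 * ((q : ℕ) : ℤ) + (s : ℕ)) = 3 then some h.choose else none
    have hA : dec f = fun t : ℤ => 0 ≤ t ∧ t < (64 * m : ℕ) ∧ x.1 t = 3 := by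
      funext t
      apply propext
      constructor
      · rintro ⟨q, s, h1, rfl⟩
        have := q.2
        have := s.2
        refine ⟨by omega, by omega, ?_⟩
        simp only [f] at h1
        split_ifs at h1 with h
        rw [← Option.some.inj h1]
        exact h.choose_spec
      · rintro ⟨h1, h2, h3⟩
        have e : t = 64 * (((⟨t.toNat / 64, by omega⟩ : Fin m) : ℕ) : ℤ) +
          ((⟨t.toNat % 64, by omega⟩ : Fin 64) : ℕ) := by simp only; omega
        have h : ∃ s : Fin 64, x.1 (64 * (((⟨t.toNat / 64, by omega⟩ : Fin m) : ℕ) : ℤ) +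
          (s : ℕ)) = 3 := ⟨_, e ▸ h3⟩
        refine ⟨_, h.choose, dif_pos h, ?_⟩
        have a1 := (x.2 _ 0 _ 0).1 h.choose_spec h3
        have a2 := (x.2 _ 0 _ 0).1 h3 h.choose_spec
        have := h.choose.2
        simp only at a1 a2 ⊢
        omega
    have hc := card_Sp x (64 * m) p hp
    rw [← hA] at hc
    have h3 : ∀ W t, cen0 (dec f) W t = 3 → dec f t := fun W t h => by
      by_contra hh
      unfold cen0 at h
      rw [if_neg hh] at h
      split_ifs at h <;> exact absurd h (by decide)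
    have hsp : ∀ t, SpP (dec f) t → x.1 t = 0 ∨ x.1 t = 1 := by
      rintro t ⟨i, n, a, b, c, d⟩
      rw [hA] at a b
      exact (x.2 i n t 0).2.1 a.2.2 b.2.2 c d
    have hmem : ∀ W, cen0 (dec f) W ∈ X0 := fun W => by
      refine mem_sub x.2 (fun t h => ?_) fun i n t a b c d => ?_
      · have := h3 W t h
        rw [hA] at this
        exact this.2.2
      · have hs : SpP (dec f) t := ⟨i, n, h3 W _ a, h3 W _ b, c, d⟩
        have : ¬ dec f t := fun h => by
          rw [hA] at h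
          have h5 := h.2.2
          rcases hsp t hs with h6 | h6 <;> rw [h6] at h5 <;> exact absurd h5 (by decide)
        unfold cen0
        rw [if_neg this, if_pos hs]
        split_ifs <;> simp
    refine ⟨cen (dec f) ((Sp (64 * m) (dec f)).filter fun t => x.1 t = 1),
      Finset.mem_biUnion.2 ⟨f, Finset.mem_filter.2 ⟨Finset.mem_univ _, by omega⟩,
        Finset.mem_image_of_mem _ (Finset.mem_powerset.2 (Finset.filter_subset _ _))⟩,
      fun t ht => ?_⟩
    unfold cen
    rw [dif_pos (hmem _)]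
    simp only [cen0]
    by_cases c1 : dec f t
    · rw [if_pos c1]
      rw [hA] at c1
      rw [c1.2.2]; decide
    · rw [if_neg c1]
      by_cases c2 : SpP (dec f) t
      · rw [if_pos c2]
        have c3 : (t : ℤ) ∈ Sp (64 * m) (dec f) :=
          Finset.mem_filter.2 ⟨Finset.mem_Ico.2 ⟨by omega, by omega⟩, c2⟩
        rcases hsp t c2 with h | h
        · rw [if_neg (fun hh => by
            have := (Finset.mem_filter.1 hh).2
            rw [h] at this; exact absurd this (by decide)), h]; decide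
        · rw [if_pos (Finset.mem_filter.2 ⟨c3, h⟩), h]; decide
      · rw [if_neg c2]
        have : x.1 t ≠ 3 := fun h => c1 (by rw [hA]; exact ⟨by omega, by omega, h⟩)
        revert this
        generalize x.1 t = a
        revert a; decide

def wd (p : ℕ) (w : Fin p → Bool) (t : ℤ) : Fin 4 :=
  if t = 0 ∨ t = p + 1 then 3 else
    if h : (t - 1).toNat < p then (if w ⟨(t - 1).toNat, h⟩ then 1 else 0) else 0

lemma wd_ne (p : ℕ) (w : Fin p → Bool) (t : ℤ) (h : ¬ (t = 0 ∨ t = p + 1)) :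
    wd p w t = 0 ∨ wd p w t = 1 := by
  unfold wd
  rw [if_neg h]
  split_ifs <;> simp

lemma wd_mem (p : ℕ) (hp : 64 ≤ p) (w : Fin p → Bool) : wd p w ∈ X0 := by
  have h3 : ∀ t, wd p w t = 3 → t = 0 ∨ t = p + 1 := fun t ht => by
    by_contra hh
    rcases wd_ne _ w t hh with h | h <;> rw [h] at ht <;> exact absurd ht (by decide)
  intro i n j m
  have p3 : (0 : ℤ) < 16 ^ n := by positivity
  have p4 : (0 : ℤ) < 16 ^ m := by positivity
  refine ⟨fun a c d => ?_, fun a b c d => ?_, fun a b c e d => ?_⟩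
  · have := h3 _ a
    have := h3 _ c
    omega
  · have := h3 _ a
    have := h3 _ b
    exact wd_ne _ w j (by omega)
  · have := h3 _ a
    have := h3 _ c
    have := h3 _ e
    omega

lemma lower (n : ℕ) (hn : 64 ≤ 16 ^ n) (S : Finset Pt)
    (h : ∀ x, ∃ s ∈ S, DT FF (16 ^ n + 2) s x < 3 / 2) : 2 ^ 16 ^ n ≤ S.card := by
  classical
  choose f hf hf1 using fun w : Fin (16 ^ n) → Bool => h ⟨_, wd_mem _ hn w⟩
  have hf2 : ∀ w (t : ℕ), t < 16 ^ n + 2 → dn ((f w).1 t) (wd _ w t) ≤ 1 := fun w t ht => by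
    have a : (dn ((f w).1 t) (wd _ w t) : ℝ) < 2 := ((le_DT _ _ _ t ht).trans_lt (hf1 w)).trans (by norm_num)
    have : dn ((f w).1 t) (wd _ w t) < 2 := by exact_mod_cast a
    omega
  have k1 : ∀ b : Fin 4, dn b 3 ≤ 1 → b = 3 := by decide
  have k2 : ∀ a b : Fin 4, (a = 0 ∨ a = 1) → (b = 0 ∨ b = 1) → dn a b ≤ 1 → a = b := by decide
  have key : ∀ w (s : Fin (16 ^ n)), (f w).1 ((s + 1 : ℕ) : ℤ) = if w s then 1 else 0 :=
    fun w s => by
    have a1 : (f w).1 0 = 3 := k1 _ (by simpa [wd] using hf2 w 0 (Nat.succ_pos _))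
    have a2 : (f w).1 (0 + 1 + 16 ^ n) = 3 := k1 _ (by
      simpa [wd, add_comm] using hf2 w (16 ^ n + 1) (Nat.lt_succ_self _))
    have hs := s.2
    have hc : ((16 ^ n : ℕ) : ℤ) = 16 ^ n := by push_cast; rfl
    have a3 := ((f w).2 0 n ((s + 1 : ℕ) : ℤ) 0).2.1 a1 a2 (by omega) (by omega)
    rw [k2 _ _ a3 (wd_ne _ w _ (by omega)) (hf2 w (s + 1) (by omega))]
    unfold wd
    rw [if_neg (by omega), dif_pos (by omega)]
    simp
  have hinj : Function.Injective f := fun v w hvw => funext fun s => by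
    have := key v s
    rw [hvw, key w s] at this
    revert this
    cases v s <;> cases w s <;> decide
  have := Finset.card_le_card_of_injOn (s := Finset.univ) (t := S) f (fun w _ => hf w) hinj.injOn
  simpa using this

theorem result : ∃ (X : Type) (_ : MetricSpace X) (_ : CompactSpace X) (F : X ≃ₜ X),
    (∃ x : X, Dense (range fun n : ℕ => F^[n] x)) ∧
    (∃ h : ℝ, Tendsto (fun ε : ℝ => limsup (rate (sep F ε)) atTop) (𝓝[>] 0) (𝓝 (h : EReal))) ∧
    (∃ ε : ℝ, 0 < ε ∧ liminf (rate (span F ε)) atTop < limsup (rate (span F ε)) atTop) ∧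
    ∀ δ : ℝ, 0 < δ → liminf (rate (sep F δ)) atTop = limsup (rate (sep F δ)) atTop := by
  refine ⟨Pt, inferInstance, inferInstance, FF, transitive, ?_, ⟨3 / 2, by norm_num, ?_⟩,
    fun δ hδ => ?_⟩
  · obtain ⟨L, hL⟩ := sep_small
    refine ⟨L, tendsto_const_nhds.congr' ?_⟩
    filter_upwards [Ioc_mem_nhdsGT (zero_lt_one' ℝ)] with ε hε
    exact (hL ε hε.1 hε.2).limsup_eq.symm
  · have hl2 : 0 < Real.log 2 := Real.log_pos (by norm_num)
    have hpow : ∀ n : ℕ, n < 16 ^ n := fun n => Nat.lt_pow_self (by norm_num)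
    refine lt_of_le_of_lt (b := ((41 / 64 * Real.log 2 : ℝ) : EReal)) ?_
      (lt_of_lt_of_le (b := ((7 / 8 * Real.log 2 : ℝ) : EReal)) ?_ ?_)
    · refine liminf_le_of_frequently_le' (frequently_atTop.2 fun a => ⟨64 * (4 * 16 ^ a), ?_, ?_⟩)
      · have := hpow a; omega
      · obtain ⟨S, h1, hS⟩ := upper (4 * 16 ^ a) (16 * 16 ^ a) (136 * 16 ^ a) (fun n hn => by
          have h1 : (16 : ℤ) ^ n < 16 ^ (a + 2) := by rw [pow_add]; push_cast at hn; linarith
          have h2 := (pow_lt_pow_iff_right₀ (by norm_num : (1 : ℤ) < 16)).1 h1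
          push_cast
          rw [← pow_succ']
          exact pow_le_pow_right₀ (by norm_num) (by omega)) (by omega)
        have h2 : span FF (3 / 2) (64 * (4 * 16 ^ a)) ≤ S.card := Nat.sInf_le ⟨S, rfl, fun x => by
          obtain ⟨s, hs, h⟩ := hS x
          exact ⟨s, hs, (DT_le_one _ _ _ h).trans_lt (by norm_num)⟩⟩
        have h4 : span FF (3 / 2) (64 * (4 * 16 ^ a)) ≤ 2 ^ (164 * 16 ^ a) := by
          refine (h2.trans h1).trans ?_
          rw [show 164 * 16 ^ a = 7 * (4 * 16 ^ a) + 136 * 16 ^ a by ring, pow_add, pow_mul 2 7]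
          exact Nat.mul_le_mul_right _ (Nat.pow_le_pow_left (by norm_num) _)
        have h0 : 0 < 16 ^ a := by positivity
        rw [rate, EReal.coe_le_coe_iff, div_le_iff₀ (by positivity)]
        generalize span FF (3 / 2) (64 * (4 * 16 ^ a)) = M at h4
        generalize 16 ^ a = T at h4
        rcases M.eq_zero_or_pos with rfl | hM
        · simp only [Nat.cast_zero, Real.log_zero]; positivity
        · have h5 : ((M : ℝ)) ≤ 2 ^ (164 * T) := by exact_mod_cast h4
          have h6 := Real.log_le_log (by positivity) h5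
          rw [Real.log_pow] at h6
          push_cast at h6 ⊢
          linarith
    · rw [EReal.coe_lt_coe_iff]; linarith
    · refine le_limsup_of_frequently_le' (frequently_atTop.2 fun a => ⟨16 ^ (a + 2) + 2, ?_, ?_⟩)
      · have := hpow (a + 2); omega
      · have h16 : 64 ≤ 16 ^ (a + 2) := by
          have : 0 < 16 ^ a := by positivity
          rw [pow_add]; omega
        have hne : {N | ∃ S : Finset Pt, S.card = N ∧
            ∀ x, ∃ s ∈ S, DT FF (16 ^ (a + 2) + 2) s x < 3 / 2}.Nonempty := by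
          obtain ⟨S, -, hS⟩ := upper (16 ^ (a + 2)) (64 * 16 ^ (a + 2)) (64 * 16 ^ (a + 2))
            (fun n hn => hn.le) (by omega)
          refine ⟨_, S, rfl, fun x => ?_⟩
          obtain ⟨s, hs, h⟩ := hS x
          exact ⟨s, hs, (DT_le_one _ _ _ fun t ht => h t (by omega)).trans_lt (by norm_num)⟩
        obtain ⟨S, h0, hS⟩ := Nat.sInf_mem hne
        have h1 : 2 ^ 16 ^ (a + 2) ≤ span FF (3 / 2) (16 ^ (a + 2) + 2) :=
          (lower _ h16 S hS).trans h0.le
        rw [rate, EReal.coe_le_coe_iff, le_div_iff₀ (by positivity)]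
        generalize span FF (3 / 2) (16 ^ (a + 2) + 2) = M at h1
        generalize 16 ^ (a + 2) = p at h1 h16
        have h5 : (2 : ℝ) ^ p ≤ M := by exact_mod_cast h1
        have h6 := Real.log_le_log (by positivity) h5
        rw [Real.log_pow] at h6
        have h7 : (64 : ℝ) ≤ p := by exact_mod_cast h16
        push_cast
        nlinarith
  · obtain ⟨L, hL⟩ := sep_all δ hδ
    rw [hL.liminf_eq, hL.limsup_eq]

end Pool.Agent.Results.MP_307271_an.Q2Yes
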